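import Pool.Agent.H20.PT.Man

/-!
# Project PT, S_ATL: finite atlases exist
-/

set_option autoImplicit false

open scoped Manifold ContDiff Topology
open Filter Set Metric

universe u

namespace Pool.Agent.H15.PT

open Pool.Agent.H718R2.G Pool.Agent.H20.PT

/-- charts at a point whose target contains the ball of radius `3` -/
theorem chart3 (d : ℕ) (M : Type u) [TopologicalSpace M] [ChartedSpace (V d) M]
    [IsManifold (𝓡 d) ∞ M] (z : M) :
    ∃ χ : OpenPartialHomeomorph M (V d), χ ∈ IsManifold.maximalAtlas (𝓡 d) ∞ M ∧ z ∈ χ.source ∧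
      χ z = 0 ∧ closedBall (0 : V d) 3 ⊆ χ.target := by
  set φ : OpenPartialHomeomorph M (V d) := chartAt (V d) z with hφ
  have hs : z ∈ φ.source := mem_chart_source _ z
  have ht : φ z ∈ φ.target := φ.map_source hs
  have hm : φ ∈ IsManifold.maximalAtlas (𝓡 d) ∞ M := IsManifold.chart_mem_maximalAtlas z
  obtain ⟨ε', hε', hball'⟩ := Metric.nhds_basis_closedBall.mem_iff.mp (φ.open_target.mem_nhds ht)
  obtain ⟨ε, hε, rfl⟩ : ∃ ε : ℝ, 0 < ε ∧ ε' = 3 * ε := ⟨ε' / 3, by positivity, by ring⟩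
  have h1 : ContDiff ℝ ∞ (fun v : V d => ε⁻¹ • (v - φ z)) := by fun_prop
  have h2 : ContDiff ℝ ∞ (fun w : V d => ε • w + φ z) := by fun_prop
  refine ⟨φ.transHomeomorph (Pool.Agent.W699.SC.hom (φ z) ε hε.ne'), ?_, ?_, ?_, ?_⟩
  · apply OpenPartialHomeomorph.mem_maximalAtlas_of_contMDiffOn
    · have : ContMDiffOn (𝓡 d) (𝓡 d) ∞ ((fun v : V d => ε⁻¹ • (v - φ z)) ∘ φ) φ.source :=
        h1.contMDiff.comp_contMDiffOn (contMDiffOn_of_mem_maximalAtlas hm)
      exact this
    · have : ContMDiffOn (𝓡 d) (𝓡 d) ∞ (φ.symm ∘ (fun w : V d => ε • w + φ z))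
          ((fun w : V d => ε • w + φ z) ⁻¹' φ.target) :=
        (contMDiffOn_symm_of_mem_maximalAtlas hm).comp h2.contMDiff.contMDiffOn (fun w hw => hw)
      exact this
  · exact hs
  · change ε⁻¹ • (φ z - φ z) = 0
    rw [sub_self, smul_zero]
  · intro w hw
    change ε • w + φ z ∈ φ.target
    apply hball'
    rw [mem_closedBall, dist_eq_norm, add_sub_cancel_right, norm_smul, Real.norm_eq_abs,
      abs_of_pos hε]
    rw [mem_closedBall, dist_zero_right] at hw
    nlinarith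

theorem atl : S_ATL.{u} := by
  intro d M _ _ _ _ _
  choose χ h1 h2 h3 h4 using fun z : M => chart3 d M z
  obtain ⟨t, ht⟩ := isCompact_univ.elim_nhds_subcover
    (fun z : M => (χ z).source ∩ (χ z) ⁻¹' ball (0 : V d) 1) (fun z _ => by
      refine inter_mem ((χ z).open_source.mem_nhds (h2 z)) ?_
      refine ((χ z).continuousAt (h2 z)).preimage_mem_nhds ?_
      rw [h3 z]
      exact ball_mem_nhds _ one_pos)
  have h5 : ∀ x : M, ∃ i : Fin t.card, x ∈ (χ (t.equivFin.symm i)).source ∧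
      ‖χ (t.equivFin.symm i) x‖ < 1 := by
    intro x
    obtain ⟨z, hz, hx⟩ := mem_iUnion₂.1 (ht.2 (mem_univ x))
    refine ⟨t.equivFin ⟨z, hz⟩, ?_⟩
    rw [Equiv.symm_apply_apply]
    refine ⟨hx.1, ?_⟩
    have := hx.2
    rwa [mem_preimage, mem_ball, dist_zero_right] at this
  choose ix h6 h7 using h5
  exact ⟨⟨t.card, fun i => χ (t.equivFin.symm i), fun i => h1 _, fun i => h4 _, ix, h6, h7⟩⟩

end Pool.Agent.H15.PT
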