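import Pool.Agent.H20.PT.Skew

/-!
# Project PT3, module CLO2: a periodic point such that the map of the base has the eigenvalue one
-/

set_option autoImplicit false
set_option linter.unusedSectionVars false

open scoped Manifold ContDiff Topology
open Filter Set Metric

universe u v w

namespace Pool.Agent.H15.PT.Clo2

open Pool.Agent.H718R2.G Pool.Agent.TH80.OMS Pool.Agent.Y504.CO Pool.Agent.R773.TE
  Pool.Agent.H20.PT

/-- a linear map with a surjection onto a linear map with the eigenvalue one has the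
eigenvalue one -/
theorem root_one {n d : ℕ} (A : V n →L[ℝ] V n) (D : V d →L[ℝ] V d) (P : V n →L[ℝ] V d)
    (hP : Function.Surjective P) (hPA : ∀ x, P (A x) = D (P x)) (v : V d) (hv : v ≠ 0)
    (h : D v = v) :
    ((LinearMap.charpoly (A : V n →ₗ[ℝ] V n)).map (algebraMap ℝ ℂ)).IsRoot 1 := by
  have h2 : Module.End.HasEigenvalue (A : V n →ₗ[ℝ] V n) (1 : ℝ) := by
    by_contra hcon
    rw [Module.End.hasEigenvalue_iff, not_not] at hcon
    have hinj : Function.Injective ((A : V n →ₗ[ℝ] V n) - (LinearMap.id : V n →ₗ[ℝ] V n)) := by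
      rw [← LinearMap.ker_eq_bot]
      rw [eq_bot_iff]
      intro x hx
      rw [LinearMap.mem_ker, LinearMap.sub_apply, LinearMap.id_apply, sub_eq_zero] at hx
      rw [← hcon, Module.End.mem_eigenspace_iff, one_smul]
      exact hx
    have hsurj : Function.Surjective ((A : V n →ₗ[ℝ] V n) - (LinearMap.id : V n →ₗ[ℝ] V n)) :=
      LinearMap.injective_iff_surjective.mp hinj
    have hs2 : Function.Surjective ((D : V d →ₗ[ℝ] V d) - (LinearMap.id : V d →ₗ[ℝ] V d)) := by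
      intro y
      obtain ⟨x, hx⟩ := hP y
      obtain ⟨z, hz⟩ := hsurj x
      refine ⟨P z, ?_⟩
      have h1 : P (A z - z) = y := by
        rw [← hx, ← hz]
        rfl
      rw [map_sub, hPA] at h1
      exact h1
    have hi2 : Function.Injective ((D : V d →ₗ[ℝ] V d) - (LinearMap.id : V d →ₗ[ℝ] V d)) :=
      LinearMap.injective_iff_surjective.mpr hs2
    apply hv
    apply hi2
    rw [map_zero, LinearMap.sub_apply, LinearMap.id_apply, sub_eq_zero]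
    exact h
  rw [Module.End.hasEigenvalue_iff_isRoot_charpoly] at h2
  have h3 := Polynomial.IsRoot.map (f := algebraMap ℝ ℂ) h2
  rwa [map_one] at h3

theorem main : S_CLO2.{u, v, w} := by
  intro d e n M _ _ _ N _ _ _ T _ _ _ r hr Θ G χ hχ y₀ ξ hξ m hm H D v hper hconj hD hH hv hDv
    hyp
  set p : T := Θ (χ.symm ξ, y₀) with hp
  set ψ := chartAt (V n) p with hψdef
  have hψ : ψ ∈ IsManifold.maximalAtlas (𝓡 n) ∞ T := IsManifold.chart_mem_maximalAtlas p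
  have hpψ : p ∈ ψ.source := mem_chart_source _ p
  obtain ⟨D', hD', hμ⟩ := hyp.2 m hm hper ψ hψ hpψ
  -- the maps `φ`, `θ`
  let φ : V d → V n := fun z => ψ (Θ (χ.symm z, y₀))
  let θ : V n → V d := fun w => χ (Θ.symm (ψ.symm w)).1
  have hin : ContMDiffAt (𝓡 d) ((𝓡 d).prod (𝓡 e)) ∞ (fun z => ((χ.symm z, y₀) : M × N)) ξ :=
    (contMDiffAt_symm_of_mem_maximalAtlas hχ hξ).prodMk contMDiffAt_const
  have hΘin : ContMDiffAt (𝓡 d) (𝓡 n) ∞ (fun z => Θ (χ.symm z, y₀)) ξ :=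
    (Θ.contMDiff.contMDiffAt).comp ξ hin
  have hφ : ContMDiffAt (𝓡 d) (𝓡 n) ∞ φ ξ :=
    (contMDiffAt_of_mem_maximalAtlas hψ hpψ).comp ξ hΘin
  have hφξ : φ ξ = ψ p := rfl
  have hback : ψ.symm (ψ p) = p := ψ.left_inv hpψ
  have hΘs : Θ.symm p = (χ.symm ξ, y₀) := Θ.symm_apply_apply _
  have hsy : ContMDiffAt (𝓡 n) (𝓡 n) ∞ ψ.symm (ψ p) :=
    contMDiffAt_symm_of_mem_maximalAtlas hψ (ψ.map_source hpψ)
  have hΘsy : ContMDiffAt (𝓡 n) ((𝓡 d).prod (𝓡 e)) ∞ (fun w => Θ.symm (ψ.symm w)) (ψ p) :=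
    (Θ.symm.contMDiff.contMDiffAt).comp (ψ p) hsy
  have hfst : ContMDiffAt (𝓡 n) (𝓡 d) ∞ (fun w => (Θ.symm (ψ.symm w)).1) (ψ p) :=
    contMDiffAt_fst.comp (ψ p) hΘsy
  have hθ : ContMDiffAt (𝓡 n) (𝓡 d) ∞ θ (ψ p) := by
    refine ContMDiffAt.comp (ψ p) ?_ hfst
    refine contMDiffAt_of_mem_maximalAtlas hχ ?_
    rw [hback, hΘs]
    exact χ.map_target hξ
  have hφ' : ContDiffAt ℝ ∞ φ ξ := hφ.contDiffAt
  have hθ' : ContDiffAt ℝ ∞ θ (ψ p) := hθ.contDiffAt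
  have hφd : HasFDerivAt φ (fderiv ℝ φ ξ) ξ := (hφ'.differentiableAt (by simp)).hasFDerivAt
  have hθd : HasFDerivAt θ (fderiv ℝ θ (ψ p)) (φ ξ) :=
    (hθ'.differentiableAt (by simp)).hasFDerivAt
  -- near `ξ` the point stays in the charts
  have hsrc : ∀ᶠ z in 𝓝 ξ, Θ (χ.symm z, y₀) ∈ ψ.source :=
    hΘin.continuousAt.eventually (ψ.open_source.mem_nhds hpψ)
  have htar : ∀ᶠ z in 𝓝 ξ, z ∈ χ.target := χ.open_target.mem_nhds hξ
  have hid : (fun z => θ (φ z)) =ᶠ[𝓝 ξ] fun z => z := by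
    filter_upwards [hsrc, htar] with z hz hz'
    simp only [θ, φ]
    rw [ψ.left_inv hz, Diffeomorph.symm_apply_apply]
    exact χ.right_inv hz'
  have hinj : ∀ x : V d, fderiv ℝ θ (ψ p) (fderiv ℝ φ ξ x) = x := by
    have h1 : HasFDerivAt (fun z => θ (φ z)) ((fderiv ℝ θ (ψ p)).comp (fderiv ℝ φ ξ)) ξ :=
      hθd.comp ξ hφd
    have h2 : HasFDerivAt (fun z : V d => z) ((fderiv ℝ θ (ψ p)).comp (fderiv ℝ φ ξ)) ξ :=
      h1.congr_of_eventuallyEq hid.symm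
    have h3 := h2.unique (hasFDerivAt_id ξ)
    intro x
    exact congrArg (fun L : V d →L[ℝ] V d => L x) h3
  -- near `ψ p` the point stays in the charts
  have hGc : Continuous (G^[m]) := G.continuous.iterate m
  have e1 : ∀ᶠ w in 𝓝 (ψ p), G^[m] (ψ.symm w) ∈ ψ.source := by
    have h1 : ContinuousAt (fun w => G^[m] (ψ.symm w)) (ψ p) :=
      ContinuousAt.comp (hGc.continuousAt) hsy.continuousAt
    refine h1.eventually (ψ.open_source.mem_nhds ?_)
    show G^[m] (ψ.symm (ψ p)) ∈ ψ.source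
    rw [hback, hper]
    exact hpψ
  have e2 : ∀ᶠ w in 𝓝 (ψ p), (Θ.symm (ψ.symm w)).1 ∈ χ.source := by
    refine hfst.continuousAt.eventually (χ.open_source.mem_nhds ?_)
    show (Θ.symm (ψ.symm (ψ p))).1 ∈ χ.source
    rw [hback, hΘs]
    exact χ.map_target hξ
  have hθv : θ (ψ p) = ξ := by
    simp only [θ]
    rw [hback, hΘs]
    exact χ.right_inv hξ
  have e3 : ∀ᶠ w in 𝓝 (ψ p),
      (Θ.symm (G^[m] (Θ (χ.symm (θ w), (Θ.symm (ψ.symm w)).2)))).1 = χ.symm (H (θ w)) := by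
    have h1 : ContinuousAt (fun w => (θ w, (Θ.symm (ψ.symm w)).2)) (ψ p) :=
      hθ.continuousAt.prodMk (continuousAt_snd.comp hΘsy.continuousAt)
    have h2 : (θ (ψ p), (Θ.symm (ψ.symm (ψ p))).2) = (ξ, y₀) := by
      rw [hθv, hback, hΘs]
    have h3 : Tendsto (fun w => (θ w, (Θ.symm (ψ.symm w)).2)) (𝓝 (ψ p))
      (𝓝 (θ (ψ p), (Θ.symm (ψ.symm (ψ p))).2)) := h1.tendsto
    rw [h2] at h3
    exact h3.eventually hconj
  have e4 : ∀ᶠ w in 𝓝 (ψ p), H (θ w) ∈ χ.target := by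
    have h1 : ContinuousAt (fun w => H (θ w)) (ψ p) := by
      refine ContinuousAt.comp ?_ hθ.continuousAt
      rw [hθv]
      exact hD.continuousAt
    refine h1.eventually (χ.open_target.mem_nhds ?_)
    show H (θ (ψ p)) ∈ χ.target
    rw [hθv, hH]
    exact hξ
  have hcc : (fun w => θ (ψ (G^[m] (ψ.symm w)))) =ᶠ[𝓝 (ψ p)] fun w => H (θ w) := by
    filter_upwards [e1, e2, e3, e4] with w h1 h2 h3 h4
    have h5 : Θ (χ.symm (θ w), (Θ.symm (ψ.symm w)).2) = ψ.symm w := by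
      simp only [θ]
      rw [χ.left_inv h2]
      exact Θ.apply_symm_apply _
    rw [h5] at h3
    show χ (Θ.symm (ψ.symm (ψ (G^[m] (ψ.symm w))))).1 = H (θ w)
    rw [ψ.left_inv h1, h3]
    exact χ.right_inv h4
  have hval : (fun v => ψ (G^[m] (ψ.symm v))) (ψ p) = ψ p := by
    show ψ (G^[m] (ψ.symm (ψ p))) = ψ p
    rw [hback, hper]
  have hL : HasFDerivAt (fun w => θ (ψ (G^[m] (ψ.symm w)))) ((fderiv ℝ θ (ψ p)).comp D')
      (ψ p) := by
    have h1 : HasFDerivAt (fun v => ψ (G^[m] (ψ.symm v))) D' (ψ p) := hD'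
    have h2 : HasFDerivAt θ (fderiv ℝ θ (ψ p)) ((fun v => ψ (G^[m] (ψ.symm v))) (ψ p)) := by
      rw [hval]
      exact hθd
    exact h2.comp (ψ p) h1
  have hR : HasFDerivAt (fun w => H (θ w)) (D.comp (fderiv ℝ θ (ψ p))) (ψ p) := by
    have h1 : HasFDerivAt H D (θ (ψ p)) := by
      rw [hθv]
      exact hD
    have h2 : HasFDerivAt θ (fderiv ℝ θ (ψ p)) (ψ p) := hθd
    exact h1.comp (ψ p) h2
  have heq : (fderiv ℝ θ (ψ p)).comp D' = D.comp (fderiv ℝ θ (ψ p)) :=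
    hL.unique (hR.congr_of_eventuallyEq hcc)
  refine hμ 1 (root_one D' D (fderiv ℝ θ (ψ p)) (fun x => ⟨fderiv ℝ φ ξ x, hinj x⟩) ?_ v hv hDv)
    norm_one
  intro x
  exact congrArg (fun L : V n →L[ℝ] V d => L x) heq

end Pool.Agent.H15.PT.Clo2
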