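import Pool.Agent.H20.PT.Man

/-!
# Project PT, S_PERT: the family of cut-off affine kicks of `ℝ^d`
-/

set_option autoImplicit false

open scoped Manifold ContDiff Topology NNReal
open Filter Set Metric

namespace Pool.Agent.H15.PT

open Pool.Agent.H718R2.G Pool.Agent.H20.PT

section gen

variable {P E : Type} [NormedAddCommGroup P] [NormedSpace ℝ P] [FiniteDimensional ℝ P]
  [NormedAddCommGroup E] [NormedSpace ℝ E]

/-- A smooth map of small norm, the identity near `0`, Lipschitz. -/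
theorem cutoff (P : Type) [NormedAddCommGroup P] [NormedSpace ℝ P] [FiniteDimensional ℝ P]
    {c : ℝ} (hc0 : 0 < c) : ∃ (η : P → P) (L : ℝ≥0), ContDiff ℝ ∞ η ∧ LipschitzWith L η ∧
      (∀ w, ‖η w‖ ≤ 2 * c) ∧ (∀ w, ‖w‖ ≤ c → η w = w) ∧ η 0 = 0 := by
  let γ : ContDiffBump (0 : P) := ⟨c, 2 * c, hc0, by linarith⟩
  have hηs : ContDiff ℝ ∞ (fun w : P => γ w • w) := γ.contDiff.smul contDiff_id
  have hηc : HasCompactSupport (fun w : P => γ w • w) := γ.hasCompactSupport.smul_right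
  obtain ⟨L, hL⟩ := ContDiff.lipschitzWith_of_hasCompactSupport (𝕂 := ℝ) (n := ∞) hηc hηs (by simp)
  refine ⟨fun w => γ w • w, L, hηs, hL, ?_, ?_, ?_⟩
  · intro w
    simp only
    by_cases hx : 2 * c ≤ ‖w‖
    · have h0 : γ w = 0 := by
        apply γ.zero_of_le_dist
        rw [dist_zero_right]
        exact hx
      rw [h0, zero_smul, norm_zero]
      positivity
    · rw [norm_smul, Real.norm_eq_abs, abs_of_nonneg γ.nonneg]
      calc γ w * ‖w‖ ≤ 1 * (2 * c) := mul_le_mul γ.le_one (not_le.1 hx).le (norm_nonneg _) zero_le_one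
        _ = 2 * c := one_mul _
  · intro w hx
    simp only
    rw [γ.one_of_mem_closedBall, one_smul]
    rw [Metric.mem_closedBall, dist_zero_right]
    exact hx
  · simp

/-- the family `v + Q (w, v)`, `Q` Lipschitz, made global -/
theorem gen_family [CompleteSpace E] (Q : P × E → E) (hQs : ContDiff ℝ ∞ Q) (A B : ℝ) (hA : 0 ≤ A)
    (hB : 0 ≤ B)
    (hQv : ∀ (w : P) (v v' : E), ‖Q (w, v) - Q (w, v')‖ ≤ ‖w‖ * A * ‖v - v'‖)
    (hQw : ∀ (w w' : P) (v : E), ‖Q (w, v) - Q (w', v)‖ ≤ B * ‖w - w'‖) :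
    ∃ (F F' : P × E → E) (κ : ℝ), 0 < κ ∧ ContDiff ℝ ∞ F ∧ ContDiff ℝ ∞ F' ∧
      (∀ w v, F' (w, F (w, v)) = v) ∧ (∀ w v, F (w, F' (w, v)) = v) ∧
      (∀ v, (∀ w, Q (w, v) = 0) → ∀ w, F (w, v) = v) ∧ ((∀ v, Q (0, v) = 0) → ∀ v, F (0, v) = v) ∧
      ∀ w v, ‖w‖ ≤ κ → F (w, v) = v + Q (w, v) := by
  have : CompleteSpace P := FiniteDimensional.complete ℝ P
  set c : ℝ := 1 / (8 * (A + 1)) with hc
  have hc0 : 0 < c := by rw [hc]; positivity
  have hcC : 2 * c * A ≤ 1 / 4 := by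
    rw [hc]
    have : 2 * (1 / (8 * (A + 1))) * A = A / (4 * (A + 1)) := by
      field_simp
      ring
    rw [this, div_le_div_iff₀ (by positivity) (by norm_num)]
    nlinarith
  obtain ⟨η, L, hηs, hL, hηb, hηx, hη0⟩ := cutoff P hc0
  have hL0 : (0 : ℝ) ≤ L := L.coe_nonneg
  set t : ℝ := 1 / (4 * (B + 1) * (L + 1)) with ht
  have ht0 : 0 < t := by rw [ht]; positivity
  have htL : B * (L * t) ≤ 1 / 4 := by
    rw [ht]
    have : B * ((L : ℝ) * (1 / (4 * (B + 1) * ((L : ℝ) + 1)))) = (B / (B + 1)) * (L / (L + 1)) / 4 := by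
      field_simp
    rw [this]
    have h1 : B / (B + 1) ≤ 1 := by
      rw [div_le_one (by positivity)]
      linarith
    have h2 : (L : ℝ) / (L + 1) ≤ 1 := by
      rw [div_le_one (by positivity)]
      linarith
    have h3 : 0 ≤ B / (B + 1) := by positivity
    have h4 : 0 ≤ (L : ℝ) / (L + 1) := by positivity
    nlinarith
  set g : P × E → P × E := fun p => (0, Q (η (t • p.1), p.2)) with hg
  have hgs : ContDiff ℝ ∞ g := by
    refine contDiff_const.prodMk ?_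
    exact hQs.comp ((hηs.comp (contDiff_fst.const_smul t)).prodMk contDiff_snd)
  have hgl : LipschitzWith (1 / 2) g := by
    refine LipschitzWith.of_dist_le_mul fun p p' => ?_
    have h1 : dist (g p) (g p') = ‖Q (η (t • p.1), p.2) - Q (η (t • p'.1), p'.2)‖ := by
      rw [Prod.dist_eq, hg]
      simp only [dist_self]
      rw [max_eq_right dist_nonneg, dist_eq_norm]
    have h2 : Q (η (t • p.1), p.2) - Q (η (t • p'.1), p'.2) =
        (Q (η (t • p.1), p.2) - Q (η (t • p.1), p'.2)) +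
          (Q (η (t • p.1), p'.2) - Q (η (t • p'.1), p'.2)) := by
      abel
    have h3 : ‖Q (η (t • p.1), p.2) - Q (η (t • p.1), p'.2)‖ ≤ 1 / 4 * dist p p' := by
      have h5 : ‖p.2 - p'.2‖ ≤ dist p p' := by
        rw [← dist_eq_norm, Prod.dist_eq]
        exact le_max_right _ _
      refine (hQv _ _ _).trans ?_
      calc ‖η (t • p.1)‖ * A * ‖p.2 - p'.2‖ ≤ 2 * c * A * ‖p.2 - p'.2‖ := by
            have := hηb (t • p.1)
            gcongr
        _ ≤ 1 / 4 * dist p p' := mul_le_mul hcC h5 (norm_nonneg _) (by norm_num)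
    have h6 : ‖Q (η (t • p.1), p'.2) - Q (η (t • p'.1), p'.2)‖ ≤ 1 / 4 * dist p p' := by
      have h4 := hL.norm_sub_le (t • p.1) (t • p'.1)
      have h5 : ‖p.1 - p'.1‖ ≤ dist p p' := by
        rw [← dist_eq_norm, Prod.dist_eq]
        exact le_max_left _ _
      have h7 : ‖t • p.1 - t • p'.1‖ = t * ‖p.1 - p'.1‖ := by
        rw [← smul_sub, norm_smul, Real.norm_eq_abs, abs_of_pos ht0]
      rw [h7] at h4
      refine (hQw _ _ _).trans ?_
      calc B * ‖η (t • p.1) - η (t • p'.1)‖ ≤ B * (L * (t * ‖p.1 - p'.1‖)) := by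
            gcongr
        _ = B * (L * t) * ‖p.1 - p'.1‖ := by ring
        _ ≤ 1 / 4 * dist p p' := mul_le_mul htL h5 (norm_nonneg _) (by norm_num)
    rw [h1, h2]
    have h8 : (((1 / 2 : ℝ≥0)) : ℝ) = 1 / 2 := by simp
    rw [h8]
    refine (norm_add_le _ _).trans ?_
    linarith
  obtain ⟨H, hH1, hH2, hH3⟩ := Pool.Agent.W782.SC.perturb g hgs le_rfl hgl
  have hH : ∀ a v, H (a, v) = (a, v + Q (η (t • a), v)) := by
    intro a v
    rw [hH3, hg]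
    simp
  have hHs1 : ∀ a v, (H.symm (a, v)).1 = a := by
    intro a v
    have h1 := H.apply_symm_apply (a, v)
    have h2 : H (H.symm (a, v)) = H ((H.symm (a, v)).1, (H.symm (a, v)).2) := rfl
    rw [h2, hH] at h1
    exact congrArg Prod.fst h1
  set F : P × E → E := fun q => q.2 + Q (η q.1, q.2) with hF
  set F' : P × E → E := fun q => (H.symm (t⁻¹ • q.1, q.2)).2 with hF'
  have hHF : ∀ x v, H (t⁻¹ • x, v) = (t⁻¹ • x, F (x, v)) := by
    intro x v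
    have e : t • t⁻¹ • x = x := smul_inv_smul₀ ht0.ne' x
    rw [hH, e]
  have hinv1 : ∀ x v, F' (x, F (x, v)) = v := by
    intro x v
    have h1 : F' (x, F (x, v)) = (H.symm (t⁻¹ • x, F (x, v))).2 := rfl
    rw [h1, ← hHF, H.symm_apply_apply]
  have hinv2 : ∀ x v, F (x, F' (x, v)) = v := by
    intro x v
    have h1 := H.apply_symm_apply (t⁻¹ • x, v)
    have h2 : H.symm (t⁻¹ • x, v) = (t⁻¹ • x, F' (x, v)) := Prod.ext (hHs1 _ _) rfl
    rw [h2, hHF] at h1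
    exact congrArg Prod.snd h1
  refine ⟨F, F', c, hc0, ?_, ?_, hinv1, hinv2, ?_, ?_, ?_⟩
  · exact contDiff_snd.add (hQs.comp ((hηs.comp contDiff_fst).prodMk contDiff_snd))
  · exact contDiff_snd.comp (hH2.comp ((contDiff_fst.const_smul t⁻¹).prodMk contDiff_snd))
  · intro v hv w
    rw [hF]
    simp only
    rw [hv, add_zero]
  · intro h v
    rw [hF]
    simp only
    rw [hη0, h, add_zero]
  · intro w v hw
    rw [hF]
    simp only
    rw [hηx w hw]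

end gen

section kick

/-- the cut-off functions -/
theorem bumps (d : ℕ) : ∃ (b1 : V d → ℝ) (b2 : V d → V d) (C1 C2 : ℝ≥0), ContDiff ℝ ∞ b1 ∧
    ContDiff ℝ ∞ b2 ∧ LipschitzWith C1 b1 ∧ LipschitzWith C2 b2 ∧
    (∀ v, v ∉ closedBall (0 : V d) (5 / 2) → b1 v = 0 ∧ b2 v = 0) ∧
    (∀ v, ‖v‖ ≤ 2 → b1 v = 1 ∧ b2 v = v) ∧ (∀ v, ‖b1 v‖ ≤ 1) ∧ ∀ v, ‖b2 v‖ ≤ 5 / 2 := by
  let bu : ContDiffBump (0 : V d) := ⟨2, 5 / 2, by norm_num, by norm_num⟩
  have hb1s : ContDiff ℝ ∞ (fun v : V d => bu v) := bu.contDiff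
  have hb1c : HasCompactSupport (fun v : V d => bu v) := bu.hasCompactSupport
  have hb2s : ContDiff ℝ ∞ (fun v : V d => bu v • v) := hb1s.smul contDiff_id
  have hb2c : HasCompactSupport (fun v : V d => bu v • v) := hb1c.smul_right
  obtain ⟨C1, hC1⟩ := ContDiff.lipschitzWith_of_hasCompactSupport (𝕂 := ℝ) (n := ∞) hb1c hb1s (by simp)
  obtain ⟨C2, hC2⟩ := ContDiff.lipschitzWith_of_hasCompactSupport (𝕂 := ℝ) (n := ∞) hb2c hb2s (by simp)
  have h10 : ∀ v : V d, 5 / 2 ≤ ‖v‖ → bu v = 0 := by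
    intro v hv
    apply bu.zero_of_le_dist
    rw [dist_zero_right]
    exact hv
  have h11 : ∀ v : V d, ‖v‖ ≤ 2 → bu v = 1 := by
    intro v hv
    apply bu.one_of_mem_closedBall
    rw [mem_closedBall, dist_zero_right]
    exact hv
  have h1n : ∀ v : V d, ‖bu v‖ ≤ 1 := by
    intro v
    rw [Real.norm_eq_abs, abs_of_nonneg bu.nonneg]
    exact bu.le_one
  refine ⟨fun v => bu v, fun v => bu v • v, C1, C2, hb1s, hb2s, hC1, hC2, ?_, ?_, h1n, ?_⟩
  · intro v hv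
    rw [mem_closedBall, dist_zero_right, not_le] at hv
    exact ⟨h10 v hv.le, by simp only; rw [h10 v hv.le, zero_smul]⟩
  · intro v hv
    exact ⟨h11 v hv, by simp only; rw [h11 v hv, one_smul]⟩
  · intro v
    simp only
    by_cases hv : 5 / 2 ≤ ‖v‖
    · rw [h10 v hv, zero_smul, norm_zero]
      norm_num
    · rw [norm_smul]
      calc ‖bu v‖ * ‖v‖ ≤ 1 * (5 / 2) := mul_le_mul (h1n v) (not_le.1 hv).le (norm_nonneg _)
            zero_le_one
        _ = 5 / 2 := one_mul _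

/-- a smooth family of diffeomorphisms of `ℝ^d` supported in the ball of radius `5/2` -/
structure KFam (d : ℕ) (F F' : Kp d × V d → V d) : Prop where
  smooth : ContDiff ℝ ∞ F
  smooth' : ContDiff ℝ ∞ F'
  inv : ∀ w v, F' (w, F (w, v)) = v
  inv' : ∀ w v, F (w, F' (w, v)) = v
  supp : ∀ w v, v ∉ closedBall (0 : V d) (5 / 2) → F (w, v) = v
  supp' : ∀ w v, v ∉ closedBall (0 : V d) (5 / 2) → F' (w, v) = v
  zero : ∀ v, F (0, v) = v

theorem kick_q (d : ℕ) : ∃ (Q : Kp d × V d → V d) (A B : ℝ), ContDiff ℝ ∞ Q ∧ 0 ≤ A ∧ 0 ≤ B ∧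
    (∀ (w : Kp d) (v v' : V d), ‖Q (w, v) - Q (w, v')‖ ≤ ‖w‖ * A * ‖v - v'‖) ∧
    (∀ (w w' : Kp d) (v : V d), ‖Q (w, v) - Q (w', v)‖ ≤ B * ‖w - w'‖) ∧
    (∀ v, v ∉ closedBall (0 : V d) (5 / 2) → ∀ w, Q (w, v) = 0) ∧ (∀ v, Q (0, v) = 0) ∧
    ∀ w v, ‖v‖ ≤ 2 → Q (w, v) = w.1 + w.2 v := by
  obtain ⟨b1, b2, C1, C2, hb1s, hb2s, hC1, hC2, h10, h11, h1n, h2n⟩ := bumps d
  have hC10 : (0 : ℝ) ≤ C1 := C1.coe_nonneg
  have hC20 : (0 : ℝ) ≤ C2 := C2.coe_nonneg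
  refine ⟨fun p => b1 p.2 • p.1.1 + p.1.2 (b2 p.2), C1 + C2, 7 / 2, ?_, by positivity, by norm_num,
    ?_, ?_, ?_, ?_, ?_⟩
  · refine ContDiff.add ?_ ?_
    · exact (hb1s.comp contDiff_snd).smul (contDiff_fst.comp contDiff_fst)
    · exact (contDiff_snd.comp contDiff_fst).clm_apply (hb2s.comp contDiff_snd)
  · intro w v v'
    have e : (b1 v • w.1 + w.2 (b2 v)) - (b1 v' • w.1 + w.2 (b2 v')) =
        (b1 v - b1 v') • w.1 + w.2 (b2 v - b2 v') := by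
      rw [sub_smul, map_sub]
      abel
    show ‖(b1 v • w.1 + w.2 (b2 v)) - (b1 v' • w.1 + w.2 (b2 v'))‖ ≤ _
    rw [e]
    have n1 : ‖w.1‖ ≤ ‖w‖ := norm_fst_le w
    have n2 : ‖w.2‖ ≤ ‖w‖ := norm_snd_le w
    have m1 : ‖b1 v - b1 v'‖ ≤ C1 * ‖v - v'‖ := hC1.norm_sub_le v v'
    have m2 : ‖b2 v - b2 v'‖ ≤ C2 * ‖v - v'‖ := hC2.norm_sub_le v v'
    have s1 : ‖(b1 v - b1 v') • w.1‖ ≤ C1 * ‖v - v'‖ * ‖w‖ := by
      rw [norm_smul]
      exact mul_le_mul m1 n1 (norm_nonneg _) (by positivity)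
    have s2 : ‖w.2 (b2 v - b2 v')‖ ≤ ‖w‖ * (C2 * ‖v - v'‖) :=
      (w.2.le_opNorm _).trans (mul_le_mul n2 m2 (norm_nonneg _) (norm_nonneg _))
    refine (norm_add_le _ _).trans ((add_le_add s1 s2).trans (le_of_eq ?_))
    ring
  · intro w w' v
    have e : (b1 v • w.1 + w.2 (b2 v)) - (b1 v • w'.1 + w'.2 (b2 v)) =
        b1 v • (w.1 - w'.1) + (w.2 - w'.2) (b2 v) := by
      rw [smul_sub, sub_apply]
      abel
    show ‖(b1 v • w.1 + w.2 (b2 v)) - (b1 v • w'.1 + w'.2 (b2 v))‖ ≤ _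
    rw [e]
    have n1 : ‖w.1 - w'.1‖ ≤ ‖w - w'‖ := norm_fst_le (w - w')
    have n2 : ‖w.2 - w'.2‖ ≤ ‖w - w'‖ := norm_snd_le (w - w')
    have s1 : ‖b1 v • (w.1 - w'.1)‖ ≤ 1 * ‖w - w'‖ := by
      rw [norm_smul]
      exact mul_le_mul (h1n v) n1 (norm_nonneg _) zero_le_one
    have s2 : ‖(w.2 - w'.2) (b2 v)‖ ≤ ‖w - w'‖ * (5 / 2) :=
      ((w.2 - w'.2).le_opNorm _).trans (mul_le_mul n2 (h2n v) (norm_nonneg _) (norm_nonneg _))
    refine (norm_add_le _ _).trans ((add_le_add s1 s2).trans (le_of_eq ?_))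
    ring
  · intro v hv w
    show b1 v • w.1 + w.2 (b2 v) = 0
    rw [(h10 v hv).1, (h10 v hv).2, zero_smul, map_zero, add_zero]
  · intro v
    show b1 v • (0 : V d) + (0 : V d →L[ℝ] V d) (b2 v) = 0
    rw [smul_zero, zero_apply, add_zero]
  · intro w v hv
    show b1 v • w.1 + w.2 (b2 v) = _
    rw [(h11 v hv).1, (h11 v hv).2, one_smul]

theorem kick_family (d : ℕ) : ∃ (F F' : Kp d × V d → V d) (κ : ℝ), 0 < κ ∧ κ ≤ 1 / 10 ∧
    KFam d F F' ∧ ∀ w v, ‖w‖ ≤ κ → ‖v‖ ≤ 2 → F (w, v) = kick w v := by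
  obtain ⟨Q, A, B, hQs, hA, hB, hQv, hQw, hQ0, hQz, hQ2⟩ := kick_q d
  obtain ⟨F, F', κ, hκ, hF, hF', hi, hi', h0, hz, hk⟩ := gen_family Q hQs A B hA hB hQv hQw
  refine ⟨F, F', min κ (1 / 10), lt_min hκ (by norm_num), min_le_right _ _,
    ⟨hF, hF', hi, hi', fun w v hv => h0 v (hQ0 v hv) w, fun w v hv => ?_, hz hQz⟩, ?_⟩
  · have h1 := hi w v
    rw [h0 v (hQ0 v hv) w] at h1
    exact h1
  · intro w v hw hv
    rw [hk w v (hw.trans (min_le_left _ _)), hQ2 w v hv, kick, add_assoc]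

end kick

end Pool.Agent.H15.PT
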