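import Pool.Agent.H20.PT.Ctl

/-!
# Project PT, S_LOC: the local estimate in a vector space
-/

set_option autoImplicit false

open scoped ContDiff Topology
open Filter Set Metric

namespace Pool.Agent.H15.PT

open Pool.Agent.H718R2.G Pool.Agent.H20.PT

/-- monotonicity in the constants -/
theorem lmap_mono {d : ℕ} {L L' δ δ' : ℝ} {ξ y₀ : V d} {F : V d → V d} {D : V d → (V d ≃L[ℝ] V d)}
    (h : LMap L δ ξ y₀ F D) (hL0 : 1 ≤ L) (hL : L ≤ L') (hδ0 : 0 < δ') (hδ : δ' ≤ δ) :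
    LMap L' δ' ξ y₀ F D where
  val := h.val
  der z hz := h.der z (hz.trans_le hδ)
  up z hz := (h.up z (hz.trans_le hδ)).trans hL
  low z hz := (h.low z (hz.trans_le hδ)).trans hL
  lip z z' hz hz' := (h.lip z z' (hz.trans_le hδ) (hz'.trans_le hδ)).trans
    (mul_le_mul_of_nonneg_right hL (norm_nonneg _))
  inv y hy := by
    have h1 : δ' / L' ≤ δ / L := by
      apply div_le_div₀ (hδ0.le.trans hδ) hδ (by linarith) hL
    obtain ⟨z, hz, hz'⟩ := h.inv y (hy.trans_le h1)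
    exact ⟨z, hz.trans (mul_le_mul_of_nonneg_right hL (norm_nonneg _)), hz'⟩

variable {d : ℕ}

/-- a pair of mutually inverse `C²` maps between open sets -/
structure Inv2 (G G' : V d → V d) (Ω Ω' : Set (V d)) : Prop where
  op : IsOpen Ω
  op' : IsOpen Ω'
  maps : ∀ z ∈ Ω, G z ∈ Ω'
  maps' : ∀ z ∈ Ω', G' z ∈ Ω
  left : ∀ z ∈ Ω, G' (G z) = z
  right : ∀ z ∈ Ω', G (G' z) = z
  cd : ∀ z ∈ Ω, ContDiffAt ℝ 2 G z
  cd' : ∀ z ∈ Ω', ContDiffAt ℝ 2 G' z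

theorem Inv2.symm {G G' : V d → V d} {Ω Ω' : Set (V d)} (h : Inv2 G G' Ω Ω') : Inv2 G' G Ω' Ω :=
  ⟨h.op', h.op, h.maps', h.maps, h.right, h.left, h.cd', h.cd⟩

theorem Inv2.diff {G G' : V d → V d} {Ω Ω' : Set (V d)} (h : Inv2 G G' Ω Ω') {z : V d} (hz : z ∈ Ω) :
    HasFDerivAt G (fderiv ℝ G z) z :=
  ((h.cd z hz).differentiableAt (by norm_num)).hasFDerivAt

theorem Inv2.comp {G G' : V d → V d} {Ω Ω' : Set (V d)} (h : Inv2 G G' Ω Ω') {z : V d} (hz : z ∈ Ω) :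
    (fderiv ℝ G' (G z)).comp (fderiv ℝ G z) = ContinuousLinearMap.id ℝ (V d) := by
  have h1 : HasFDerivAt (G' ∘ G) ((fderiv ℝ G' (G z)).comp (fderiv ℝ G z)) z :=
    (h.symm.diff (h.maps z hz)).comp z (h.diff hz)
  have h2 : HasFDerivAt (fun z : V d => z) (ContinuousLinearMap.id ℝ (V d)) z := hasFDerivAt_id z
  refine h1.unique (h2.congr_of_eventuallyEq ?_)
  filter_upwards [h.op.mem_nhds hz] with w hw
  exact h.left w hw

/-- the derivative as a continuous linear equivalence -/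
noncomputable def Inv2.eq {G G' : V d → V d} {Ω Ω' : Set (V d)} (h : Inv2 G G' Ω Ω') {z : V d}
    (hz : z ∈ Ω) : V d ≃L[ℝ] V d :=
  ContinuousLinearEquiv.equivOfInverse (fderiv ℝ G z) (fderiv ℝ G' (G z))
    (fun v => by
      have := congrArg (fun A : V d →L[ℝ] V d => A v) (h.comp hz)
      simpa using this)
    (fun v => by
      have h1 := h.symm.comp (h.maps z hz)
      rw [h.left z hz] at h1
      have := congrArg (fun A : V d →L[ℝ] V d => A v) h1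
      simpa using this)

open Classical in
/-- the derivative everywhere -/
noncomputable def Inv2.D {G G' : V d → V d} {Ω Ω' : Set (V d)} (h : Inv2 G G' Ω Ω') (z : V d) :
    V d ≃L[ℝ] V d :=
  if hz : z ∈ Ω then h.eq hz else ContinuousLinearEquiv.refl ℝ (V d)

theorem Inv2.D_coe {G G' : V d → V d} {Ω Ω' : Set (V d)} (h : Inv2 G G' Ω Ω') {z : V d}
    (hz : z ∈ Ω) : (h.D z : V d →L[ℝ] V d) = fderiv ℝ G z := by
  rw [Inv2.D, dif_pos hz]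
  rfl

theorem Inv2.D_symm_coe {G G' : V d → V d} {Ω Ω' : Set (V d)} (h : Inv2 G G' Ω Ω') {z : V d}
    (hz : z ∈ Ω) : ((h.D z).symm : V d →L[ℝ] V d) = fderiv ℝ G' (G z) := by
  rw [Inv2.D, dif_pos hz]
  rfl

theorem Inv2.cont {G G' : V d → V d} {Ω Ω' : Set (V d)} (h : Inv2 G G' Ω Ω') {z : V d}
    (hz : z ∈ Ω) : ContinuousAt (fderiv ℝ G) z :=
  ((h.cd z hz).fderiv_right (m := 1) (by norm_num)).continuousAt

theorem Inv2.cont0 {G G' : V d → V d} {Ω Ω' : Set (V d)} (h : Inv2 G G' Ω Ω') {z : V d}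
    (hz : z ∈ Ω) : ContinuousAt G z := (h.cd z hz).continuousAt

theorem Inv2.local {G G' : V d → V d} {Ω Ω' : Set (V d)} (h : Inv2 G G' Ω Ω') {ξ₀ : V d}
    (hξ : ξ₀ ∈ Ω) : ∃ O ∈ 𝓝 ξ₀, ∃ L δ : ℝ, 1 ≤ L ∧ 0 < δ ∧ δ ≤ 1 / 2 ∧ ∀ ξ ∈ O,
      (∀ z, ‖z - ξ‖ < δ → z ∈ Ω) ∧ LMap L δ ξ (G ξ) G h.D := by
  have hη := h.maps _ hξ
  -- Lipschitz derivative
  obtain ⟨K, s, hs, hK⟩ := ((h.cd ξ₀ hξ).fderiv_right (m := 1) (by norm_num)).exists_lipschitzOnWith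
  -- Lipschitz inverse
  obtain ⟨K', s', hs', hK'⟩ := ((h.cd' _ hη).of_le (m := 1) (by norm_num)).exists_lipschitzOnWith
  have hb1 : ∀ᶠ z in 𝓝 ξ₀, ‖fderiv ℝ G z‖ < ‖fderiv ℝ G ξ₀‖ + 1 :=
    (h.cont hξ).norm.eventually_lt_const (lt_add_one _)
  have hb2 : ∀ᶠ z in 𝓝 ξ₀, ‖fderiv ℝ G' (G z)‖ < ‖fderiv ℝ G' (G ξ₀)‖ + 1 := by
    have h1 : ContinuousAt (fun z => fderiv ℝ G' (G z)) ξ₀ :=
      ContinuousAt.comp (f := G) (g := fderiv ℝ G') (h.symm.cont hη) (h.cont0 hξ)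
    exact h1.norm.eventually_lt_const (lt_add_one _)
  obtain ⟨δ₀, hδ₀, hball⟩ := Metric.mem_nhds_iff.1
    (inter_mem (inter_mem (h.op.mem_nhds hξ) hs) (hb1.and hb2))
  obtain ⟨δ₁, hδ₁, hball'⟩ := Metric.mem_nhds_iff.1 (inter_mem (h.op'.mem_nhds hη) hs')
  set L : ℝ := max (max 1 K) (max K' (max (‖fderiv ℝ G ξ₀‖ + 1) (‖fderiv ℝ G' (G ξ₀)‖ + 1))) with hL
  have hL1 : 1 ≤ L := (le_max_left _ _).trans (le_max_left _ _)
  have hLK : (K : ℝ) ≤ L := (le_max_right _ _).trans (le_max_left _ _)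
  have hLK' : (K' : ℝ) ≤ L := (le_max_left _ _).trans (le_max_right _ _)
  have hLa : ‖fderiv ℝ G ξ₀‖ + 1 ≤ L := (le_max_left _ _).trans ((le_max_right _ _).trans (le_max_right _ _))
  have hLb : ‖fderiv ℝ G' (G ξ₀)‖ + 1 ≤ L :=
    (le_max_right _ _).trans ((le_max_right _ _).trans (le_max_right _ _))
  refine ⟨ball ξ₀ (δ₀ / 2) ∩ G ⁻¹' ball (G ξ₀) (δ₁ / 2), ?_, L, min (1 / 2) (min (δ₀ / 2) (δ₁ / 2)),
    hL1, by positivity, min_le_left _ _, ?_⟩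
  · exact inter_mem (ball_mem_nhds _ (by positivity))
      ((h.cont0 hξ).preimage_mem_nhds (ball_mem_nhds _ (by positivity)))
  rintro ξ ⟨hξ1, hξ2⟩
  rw [mem_ball, dist_eq_norm] at hξ1
  rw [mem_preimage, mem_ball, dist_eq_norm] at hξ2
  have hin : ∀ z, ‖z - ξ‖ < min (1 / 2) (min (δ₀ / 2) (δ₁ / 2)) → z ∈ ball ξ₀ δ₀ := by
    intro z hz
    have h1 : ‖z - ξ‖ < δ₀ / 2 := hz.trans_le ((min_le_right _ _).trans (min_le_left _ _))
    rw [mem_ball, dist_eq_norm]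
    calc ‖z - ξ₀‖ = ‖(z - ξ) + (ξ - ξ₀)‖ := by rw [sub_add_sub_cancel]
      _ ≤ ‖z - ξ‖ + ‖ξ - ξ₀‖ := norm_add_le _ _
      _ < δ₀ := by linarith
  refine ⟨fun z hz => (hball (hin z hz)).1.1, ⟨rfl, ?_, ?_, ?_, ?_, ?_⟩⟩
  · intro z hz
    have hz1 := (hball (hin z hz)).1.1
    rw [h.D_coe hz1]
    exact h.diff hz1
  · intro z hz
    have hz1 := hball (hin z hz)
    rw [h.D_coe hz1.1.1]
    exact hz1.2.1.le.trans hLa
  · intro z hz
    have hz1 := hball (hin z hz)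
    rw [h.D_symm_coe hz1.1.1]
    exact hz1.2.2.le.trans hLb
  · intro z z' hz hz'
    have hz1 := hball (hin z hz)
    have hz1' := hball (hin z' hz')
    rw [h.D_coe hz1.1.1, h.D_coe hz1'.1.1]
    have := hK.dist_le_mul z hz1.1.2 z' hz1'.1.2
    rw [dist_eq_norm, dist_eq_norm] at this
    exact this.trans (mul_le_mul_of_nonneg_right hLK (norm_nonneg _))
  · intro y hy
    have hδy : ‖y - G ξ‖ < δ₁ / 2 := by
      refine hy.trans_le ?_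
      refine (div_le_self (by positivity) hL1).trans ?_
      exact (min_le_right _ _).trans (min_le_right _ _)
    have hyb : y ∈ ball (G ξ₀) δ₁ := by
      rw [mem_ball, dist_eq_norm]
      calc ‖y - G ξ₀‖ = ‖(y - G ξ) + (G ξ - G ξ₀)‖ := by rw [sub_add_sub_cancel]
        _ ≤ ‖y - G ξ‖ + ‖G ξ - G ξ₀‖ := norm_add_le _ _
        _ < δ₁ := by linarith
    have hyG : G ξ ∈ ball (G ξ₀) δ₁ := by
      rw [mem_ball, dist_eq_norm]
      linarith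
    have h1 := hball' hyb
    have h2 := hball' hyG
    have hξΩ : ξ ∈ Ω := (hball (hin ξ (by rw [sub_self, norm_zero]; positivity))).1.1
    refine ⟨G' y, ?_, h.right y h1.1⟩
    have := hK'.dist_le_mul y h1.2 (G ξ) h2.2
    rw [dist_eq_norm, dist_eq_norm, h.left ξ hξΩ] at this
    exact this.trans (mul_le_mul_of_nonneg_right hLK' (norm_nonneg _))

theorem Inv2.unif {G G' : V d → V d} {Ω Ω' : Set (V d)} (h : Inv2 G G' Ω Ω') {K : Set (V d)}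
    (hK : IsCompact K) (hKΩ : K ⊆ Ω) : ∃ L δ : ℝ, 1 ≤ L ∧ 0 < δ ∧ δ ≤ 1 / 2 ∧ ∀ ξ ∈ K,
      (∀ z, ‖z - ξ‖ < δ → z ∈ Ω) ∧ LMap L δ ξ (G ξ) G h.D := by
  refine hK.induction_on (p := fun O : Set (V d) => ∃ L δ : ℝ, 1 ≤ L ∧ 0 < δ ∧ δ ≤ 1 / 2 ∧
    ∀ ξ ∈ O, (∀ z, ‖z - ξ‖ < δ → z ∈ Ω) ∧ LMap L δ ξ (G ξ) G h.D) ?_ ?_ ?_ ?_
  · exact ⟨1, 1 / 2, le_refl _, by norm_num, le_refl _, fun ξ hξ => absurd hξ (notMem_empty _)⟩
  · rintro s t hst ⟨L, δ, h1, h2, h3, h4⟩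
    exact ⟨L, δ, h1, h2, h3, fun ξ hξ => h4 ξ (hst hξ)⟩
  · rintro s t ⟨L, δ, h1, h2, h3, h4⟩ ⟨L', δ', h1', h2', h3', h4'⟩
    refine ⟨max L L', min δ δ', h1.trans (le_max_left _ _), lt_min h2 h2',
      (min_le_left _ _).trans h3, ?_⟩
    rintro ξ (hξ | hξ)
    · obtain ⟨a, b⟩ := h4 ξ hξ
      exact ⟨fun z hz => a z (hz.trans_le (min_le_left _ _)),
        lmap_mono b h1 (le_max_left _ _) (lt_min h2 h2') (min_le_left _ _)⟩
    · obtain ⟨a, b⟩ := h4' ξ hξ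
      exact ⟨fun z hz => a z (hz.trans_le (min_le_right _ _)),
        lmap_mono b h1' (le_max_right _ _) (lt_min h2 h2') (min_le_right _ _)⟩
  · intro ξ hξ
    obtain ⟨O, hO, L, δ, h1, h2, h3, h4⟩ := h.local (hKΩ hξ)
    exact ⟨O, mem_nhdsWithin_of_mem_nhds hO, L, δ, h1, h2, h3, h4⟩

end Pool.Agent.H15.PT
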