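import Pool.Agent.H20.PT.Man
import Pool.Agent.H15.PT.LocE

/-!
# Project PT, S_LOC: uniform `C²` bounds in the charts
-/

set_option autoImplicit false

open scoped Manifold ContDiff Topology
open Filter Set Metric

universe u

namespace Pool.Agent.H15.PT

open Pool.Agent.H718R2.G Pool.Agent.H20.PT

variable {d : ℕ} {M : Type u} [TopologicalSpace M] [ChartedSpace (V d) M] [IsManifold (𝓡 d) ∞ M]

/-- domain of `f` in the charts `χ`, `ψ` -/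
def dom (χ ψ : OpenPartialHomeomorph M (V d)) (f : M → M) : Set (V d) :=
  χ.target ∩ χ.symm ⁻¹' (f ⁻¹' ψ.source)

omit [ChartedSpace (V d) M] [IsManifold (𝓡 d) ∞ M] in
theorem isOpen_dom (χ ψ : OpenPartialHomeomorph M (V d)) {f : M → M} (hf : Continuous f) :
    IsOpen (dom χ ψ f) :=
  χ.symm.isOpen_inter_preimage (ψ.open_source.preimage hf)

theorem two_le_top : (2 : WithTop ℕ∞) ≤ ∞ :=
  (WithTop.coe_le_coe.2 (le_top : (2 : ℕ∞) ≤ ⊤))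

theorem two_le_coe {r : ℕ∞} (hr : 2 ≤ r) : (2 : WithTop ℕ∞) ≤ (r : WithTop ℕ∞) :=
  (WithTop.coe_le_coe.2 hr)

theorem cd_loc {r : ℕ∞} (hr : 2 ≤ r) {χ ψ : OpenPartialHomeomorph M (V d)}
    (hχ : χ ∈ IsManifold.maximalAtlas (𝓡 d) ∞ M) (hψ : ψ ∈ IsManifold.maximalAtlas (𝓡 d) ∞ M)
    {f : M → M} (hf : ContMDiff (𝓡 d) (𝓡 d) r f) {z : V d} (hz : z ∈ dom χ ψ f) :
    ContDiffAt ℝ 2 (fun z => ψ (f (χ.symm z))) z := by
  rw [← contMDiffAt_iff_contDiffAt]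
  have h1 : ContMDiffAt (𝓡 d) (𝓡 d) 2 χ.symm z :=
    ((contMDiffOn_symm_of_mem_maximalAtlas hχ).contMDiffAt (χ.open_target.mem_nhds hz.1)).of_le
      two_le_top
  have h2 : ContMDiffAt (𝓡 d) (𝓡 d) 2 f (χ.symm z) := (hf _).of_le (two_le_coe hr)
  have h3 : ContMDiffAt (𝓡 d) (𝓡 d) 2 ψ (f (χ.symm z)) :=
    ((contMDiffOn_of_mem_maximalAtlas hψ).contMDiffAt (ψ.open_source.mem_nhds hz.2)).of_le
      two_le_top
  exact (ContMDiffAt.comp (g := ψ) (f := fun z => f (χ.symm z)) z h3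
    (ContMDiffAt.comp (g := f) (f := χ.symm) z h2 h1))

theorem inv2 {r : ℕ∞} (hr : 2 ≤ r) {χ ψ : OpenPartialHomeomorph M (V d)}
    (hχ : χ ∈ IsManifold.maximalAtlas (𝓡 d) ∞ M) (hψ : ψ ∈ IsManifold.maximalAtlas (𝓡 d) ∞ M)
    (f : DiffM d M r) :
    Inv2 (fun z => ψ (f (χ.symm z))) (fun z => χ (f.symm (ψ.symm z))) (dom χ ψ f)
      (dom ψ χ f.symm) where
  op := isOpen_dom χ ψ f.continuous
  op' := isOpen_dom ψ χ f.symm.continuous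
  maps z hz := by
    refine ⟨ψ.map_source hz.2, ?_⟩
    show f.symm (ψ.symm (ψ (f (χ.symm z)))) ∈ χ.source
    rw [ψ.left_inv hz.2, f.symm_apply_apply]
    exact χ.map_target hz.1
  maps' z hz := by
    refine ⟨χ.map_source hz.2, ?_⟩
    show f (χ.symm (χ (f.symm (ψ.symm z)))) ∈ ψ.source
    rw [χ.left_inv hz.2, f.apply_symm_apply]
    exact ψ.map_target hz.1
  left z hz := by
    show χ (f.symm (ψ.symm (ψ (f (χ.symm z))))) = z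
    rw [ψ.left_inv hz.2, f.symm_apply_apply, χ.right_inv hz.1]
  right z hz := by
    show ψ (f (χ.symm (χ (f.symm (ψ.symm z))))) = z
    rw [χ.left_inv hz.2, f.apply_symm_apply, ψ.right_inv hz.1]
  cd z hz := cd_loc hr hχ hψ f.contMDiff hz
  cd' z hz := cd_loc hr hψ hχ f.symm.contMDiff hz

theorem loc : S_LOC.{u} := by
  intro d M _ _ _ _ _ r f 𝒜 hr
  -- the compact sets
  have key : ∀ p : Fin 𝒜.q × Fin 𝒜.q, ∃ L δ : ℝ, 1 ≤ L ∧ 0 < δ ∧ δ ≤ 1 / 2 ∧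
      ∀ ξ : V d, ‖ξ‖ ≤ 1 → f ((𝒜.χ p.1).symm ξ) ∈ (𝒜.χ p.2).source →
      ‖𝒜.χ p.2 (f ((𝒜.χ p.1).symm ξ))‖ ≤ 3 / 2 →
      (∀ z, ‖z - ξ‖ < δ → z ∈ dom (𝒜.χ p.1) (𝒜.χ p.2) f) ∧
        ∃ D : V d → (V d ≃L[ℝ] V d),
          LMap L δ ξ (𝒜.χ p.2 (f ((𝒜.χ p.1).symm ξ))) (𝒜.loc f p.1 p.2) D := by
    rintro ⟨i, j⟩
    have hI := inv2 hr (𝒜.mem i) (𝒜.mem j) f
    have hb1 : closedBall (0 : V d) 1 ⊆ (𝒜.χ i).target :=
      (closedBall_subset_closedBall (by norm_num)).trans (𝒜.ball i)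
    have hb2 : closedBall (0 : V d) (3 / 2) ⊆ (𝒜.χ j).target :=
      (closedBall_subset_closedBall (by norm_num)).trans (𝒜.ball j)
    have hS : IsCompact ((𝒜.χ j).symm '' closedBall (0 : V d) (3 / 2)) :=
      (isCompact_closedBall _ _).image_of_continuousOn ((𝒜.χ j).continuousOn_symm.mono hb2)
    have hcont : ContinuousOn (fun ξ => f ((𝒜.χ i).symm ξ)) (closedBall (0 : V d) 1) :=
      f.continuous.comp_continuousOn ((𝒜.χ i).continuousOn_symm.mono hb1)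
    have hKc : IsCompact (closedBall (0 : V d) 1 ∩
        (fun ξ => f ((𝒜.χ i).symm ξ)) ⁻¹' ((𝒜.χ j).symm '' closedBall (0 : V d) (3 / 2))) := by
      refine (isCompact_closedBall (0 : V d) 1).of_isClosed_subset ?_ inter_subset_left
      exact hcont.preimage_isClosed_of_isClosed isClosed_closedBall hS.isClosed
    have hKΩ : closedBall (0 : V d) 1 ∩
        (fun ξ => f ((𝒜.χ i).symm ξ)) ⁻¹' ((𝒜.χ j).symm '' closedBall (0 : V d) (3 / 2)) ⊆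
        dom (𝒜.χ i) (𝒜.χ j) f := by
      rintro ξ ⟨h1, w, hw, hw'⟩
      refine ⟨hb1 h1, ?_⟩
      show f ((𝒜.χ i).symm ξ) ∈ (𝒜.χ j).source
      have hw'' : (𝒜.χ j).symm w = f ((𝒜.χ i).symm ξ) := hw'
      rw [← hw'']
      exact (𝒜.χ j).map_target (hb2 hw)
    obtain ⟨L, δ, h1, h2, h3, h4⟩ := hI.unif hKc hKΩ
    refine ⟨L, δ, h1, h2, h3, fun ξ hξ hs hn => ?_⟩
    obtain ⟨a, b⟩ := h4 ξ ⟨by rwa [mem_closedBall, dist_zero_right],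
      𝒜.χ j (f ((𝒜.χ i).symm ξ)), by rwa [mem_closedBall, dist_zero_right], (𝒜.χ j).left_inv hs⟩
    exact ⟨a, hI.D, b⟩
  choose L δ h1 h2 h3 h4 using key
  obtain ⟨A, hA⟩ := (Set.finite_range L).bddAbove
  obtain ⟨B, hB⟩ := (Set.finite_range fun p => (δ p)⁻¹).bddAbove
  have hA' : ∀ p, L p ≤ max 1 A := fun p => (hA (mem_range_self p)).trans (le_max_right _ _)
  have hB0 : (0 : ℝ) < max 2 B := lt_of_lt_of_le (by norm_num) (le_max_left _ _)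
  have hB' : ∀ p, (max 2 B)⁻¹ ≤ δ p := by
    intro p
    have h5 : (δ p)⁻¹ ≤ max 2 B := (hB (mem_range_self p)).trans (le_max_right _ _)
    rw [inv_le_comm₀ hB0 (h2 p)]
    exact h5
  refine ⟨max 1 A, (max 2 B)⁻¹, le_max_left _ _, inv_pos.2 hB0, ?_, ?_⟩
  · rw [one_div]
    exact inv_anti₀ (by norm_num) (le_max_left _ _)
  intro x j hs hn
  have hx : (𝒜.χ (𝒜.ix x)).symm (𝒜.c x) = x := (𝒜.χ (𝒜.ix x)).left_inv (𝒜.ix_src x)
  obtain ⟨a, D, b⟩ := h4 (𝒜.ix x, j) (𝒜.c x) (𝒜.ix_lt x).le (by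
    show f ((𝒜.χ (𝒜.ix x)).symm (𝒜.c x)) ∈ _
    rw [hx]
    exact hs) (by
    show ‖𝒜.χ j (f ((𝒜.χ (𝒜.ix x)).symm (𝒜.c x)))‖ ≤ _
    rw [hx]
    exact hn)
  simp only [hx] at b
  refine ⟨fun z hz => a z (hz.trans_le (hB' _)), D, ?_⟩
  exact lmap_mono b (h1 _) (hA' _) (inv_pos.2 hB0) (hB' _)

end Pool.Agent.H15.PT
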