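import Pool.Agent.H15.PT.KF

/-!
# Project PT, S_PERT: kicks depending on the symbol of the second factor
-/

set_option autoImplicit false
set_option linter.unusedSectionVars false

open scoped Manifold ContDiff Topology NNReal
open Filter Set Metric

universe u v w

namespace Pool.Agent.H15.PT

open Pool.Agent.H718R2.G Pool.Agent.H20.PT Pool.Agent.R773.TE Pool.Agent.W564.SC

section tr

variable {P : Type} [NormedAddCommGroup P] [NormedSpace ℝ P] {d : ℕ} {M : Type u}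
  [TopologicalSpace M]

open Classical in
/-- The transplanted family. -/
noncomputable def tr (χ : OpenPartialHomeomorph M (V d)) (F : P × V d → V d) (w : P) (x : M) : M :=
  if x ∈ χ.source then χ.symm (F (w, χ x)) else x

theorem tr_source {χ : OpenPartialHomeomorph M (V d)} {F : P × V d → V d} {w : P} {x : M}
    (hx : x ∈ χ.source) : tr χ F w x = χ.symm (F (w, χ x)) := by
  unfold tr; rw [if_pos hx]

theorem tr_not_source {χ : OpenPartialHomeomorph M (V d)} {F : P × V d → V d} {w : P} {x : M}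
    (hx : x ∉ χ.source) : tr χ F w x = x := by
  unfold tr; rw [if_neg hx]

theorem tr_id {χ : OpenPartialHomeomorph M (V d)} {A : Set (V d)} {F : P × V d → V d}
    (hid : ∀ w, ∀ v ∉ A, F (w, v) = v) {w : P} {x : M} (hx : x ∉ χ.symm '' A) :
    tr χ F w x = x := by
  by_cases hs : x ∈ χ.source
  · rw [tr_source hs]
    have h1 : χ x ∉ A := fun h => hx ⟨χ x, h, χ.left_inv hs⟩
    rw [hid _ _ h1, χ.left_inv hs]
  · exact tr_not_source hs

theorem maps_target {χ : OpenPartialHomeomorph M (V d)} {A : Set (V d)} (hA : A ⊆ χ.target)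
    {F F' : P × V d → V d} (hinv : ∀ w v, F' (w, F (w, v)) = v)
    (hid : ∀ w, ∀ v ∉ A, F (w, v) = v) {w : P} {v : V d} (hv : v ∈ χ.target) :
    F (w, v) ∈ χ.target := by
  by_cases h : v ∈ A
  · apply hA
    by_contra hcon
    have h1 := hid w _ hcon
    have h2 := hinv w (F (w, v))
    rw [h1, hinv] at h2
    exact hcon (by rw [← h2]; exact h)
  · rw [hid w v h]; exact hv

theorem tr_smooth [ChartedSpace (V d) M] [IsManifold (𝓡 d) ∞ M] {χ : OpenPartialHomeomorph M (V d)}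
    (hχ : χ ∈ IsManifold.maximalAtlas (𝓡 d) ∞ M) {A : Set (V d)} (hA : A ⊆ χ.target)
    (hcl : IsClosed (χ.symm '' A)) {F F' : P × V d → V d}
    (hinv : ∀ w v, F' (w, F (w, v)) = v)
    (hF : ContDiff ℝ ∞ F) (hid : ∀ w, ∀ v ∉ A, F (w, v) = v) :
    ContMDiff (𝓘(ℝ, P).prod (𝓡 d)) (𝓡 d) ∞ (fun q : P × M => tr χ F q.1 q.2) := by
  intro q
  by_cases hy : q.2 ∈ χ.source
  · have h1 : ContMDiffAt (𝓡 d) (𝓡 d) ∞ χ q.2 :=
      (contMDiffOn_of_mem_maximalAtlas hχ _ hy).contMDiffAt (χ.open_source.mem_nhds hy)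
    have ht : F (q.1, χ q.2) ∈ χ.target := maps_target hA hinv hid (χ.map_source hy)
    have h2 : ContMDiffAt (𝓡 d) (𝓡 d) ∞ χ.symm (F (q.1, χ q.2)) :=
      (contMDiffOn_symm_of_mem_maximalAtlas hχ _ ht).contMDiffAt (χ.open_target.mem_nhds ht)
    have h3 : ContMDiffAt (𝓘(ℝ, P).prod (𝓡 d)) (𝓡 d) ∞ (fun q : P × M => χ q.2) q :=
      h1.comp q contMDiffAt_snd
    have h4 : ContMDiffAt (𝓘(ℝ, P).prod (𝓡 d)) 𝓘(ℝ, P × V d) ∞
        (fun q : P × M => (q.1, χ q.2)) q :=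
      (contMDiffAt_fst).prodMk_space h3
    have h5 : ContMDiffAt (𝓘(ℝ, P).prod (𝓡 d)) (𝓡 d) ∞ (fun q : P × M => F (q.1, χ q.2)) q :=
      (hF.contMDiff.contMDiffAt).comp q h4
    have h6 : ContMDiffAt (𝓘(ℝ, P).prod (𝓡 d)) (𝓡 d) ∞
        (fun q : P × M => χ.symm (F (q.1, χ q.2))) q := h2.comp q h5
    refine h6.congr_of_eventuallyEq ?_
    filter_upwards [continuous_snd.continuousAt.preimage_mem_nhds (χ.open_source.mem_nhds hy)]
      with p hp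
    exact tr_source hp
  · have hy' : q.2 ∈ (χ.symm '' A)ᶜ := by
      rintro ⟨v, hv, h⟩
      exact hy (by rw [← h]; exact χ.map_target (hA hv))
    have h5 : ContMDiffAt (𝓘(ℝ, P).prod (𝓡 d)) (𝓡 d) ∞ (fun q : P × M => q.2) q :=
      contMDiffAt_snd
    refine h5.congr_of_eventuallyEq ?_
    filter_upwards [continuous_snd.continuousAt.preimage_mem_nhds
      (hcl.isOpen_compl.mem_nhds hy')] with p hp
    exact tr_id hid hp

theorem tr_inv {χ : OpenPartialHomeomorph M (V d)} {A : Set (V d)} (hA : A ⊆ χ.target)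
    {F F' : P × V d → V d} (hinv : ∀ w v, F' (w, F (w, v)) = v)
    (hid : ∀ w, ∀ v ∉ A, F (w, v) = v) (w : P) (x : M) :
    tr χ F' w (tr χ F w x) = x := by
  by_cases hy : x ∈ χ.source
  · have h1 : F (w, χ x) ∈ χ.target := maps_target hA hinv hid (χ.map_source hy)
    rw [tr_source hy, tr_source (χ.map_target h1), χ.right_inv h1, hinv, χ.left_inv hy]
  · rw [tr_not_source (F := F) hy, tr_not_source hy]

end tr

section one

variable {d e n : ℕ} {M : Type u} [TopologicalSpace M] [T2Space M] [ChartedSpace (V d) M]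
  [IsManifold (𝓡 d) ∞ M] {N : Type v} [TopologicalSpace N] [ChartedSpace (V e) N]
  {T : Type w} [TopologicalSpace T] [ChartedSpace (V n) T]

/-- the kick in the fibres, with the cut-off `θ` -/
noncomputable def fib {P : Type} [NormedAddCommGroup P] [NormedSpace ℝ P]
    (Θ : ProdDiff n d e T M N) (χ : OpenPartialHomeomorph M (V d))
    (F : P × V d → V d) (θ : N → ℝ) (w : P) (p : T) : T :=
  Θ (tr χ F (θ (Θ.symm p).2 • w) (Θ.symm p).1, (Θ.symm p).2)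

theorem fib_apply {P : Type} [NormedAddCommGroup P] [NormedSpace ℝ P]
    (Θ : ProdDiff n d e T M N) (χ : OpenPartialHomeomorph M (V d))
    (F : P × V d → V d) (θ : N → ℝ) (w : P) (x : M) (y : N) :
    fib Θ χ F θ w (Θ (x, y)) = Θ (tr χ F (θ y • w) x, y) := by
  unfold fib
  rw [Θ.symm_apply_apply]

theorem fib_smooth {P : Type} [NormedAddCommGroup P] [NormedSpace ℝ P]
    (Θ : ProdDiff n d e T M N) {χ : OpenPartialHomeomorph M (V d)}
    {F : P × V d → V d} {θ : N → ℝ} (hθ : ContMDiff (𝓡 e) 𝓘(ℝ, ℝ) ∞ θ)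
    (h : ContMDiff (𝓘(ℝ, P).prod (𝓡 d)) (𝓡 d) ∞ (fun q : P × M => tr χ F q.1 q.2)) :
    ContMDiff (𝓘(ℝ, P).prod (𝓡 n)) (𝓡 n) ∞ (fun q : P × T => fib Θ χ F θ q.1 q.2) := by
  have h0 : ContMDiff (𝓘(ℝ, P).prod (𝓡 n)) ((𝓡 d).prod (𝓡 e)) ∞
      (fun q : P × T => Θ.symm q.2) := Θ.symm.contMDiff.comp contMDiff_snd
  have h1 : ContMDiff (𝓘(ℝ, P).prod (𝓡 n)) (𝓡 d) ∞ (fun q : P × T => (Θ.symm q.2).1) := h0.fst
  have h2 : ContMDiff (𝓘(ℝ, P).prod (𝓡 n)) (𝓡 e) ∞ (fun q : P × T => (Θ.symm q.2).2) := h0.snd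
  have h3 : ContMDiff (𝓘(ℝ, P).prod (𝓡 n)) 𝓘(ℝ, ℝ × P) ∞
      (fun q : P × T => ((θ (Θ.symm q.2).2, q.1) : ℝ × P)) :=
    (hθ.comp h2).prodMk_space contMDiff_fst
  have h4 : ContDiff ℝ ∞ (fun z : ℝ × P => z.1 • z.2) := contDiff_fst.smul contDiff_snd
  have h5 : ContMDiff (𝓘(ℝ, P).prod (𝓡 n)) 𝓘(ℝ, P) ∞
      (fun q : P × T => θ (Θ.symm q.2).2 • q.1) := h4.contMDiff.comp h3
  have h6 : ContMDiff (𝓘(ℝ, P).prod (𝓡 n)) (𝓘(ℝ, P).prod (𝓡 d)) ∞
      (fun q : P × T => ((θ (Θ.symm q.2).2 • q.1, (Θ.symm q.2).1) : P × M)) := h5.prodMk h1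
  have h7 : ContMDiff (𝓘(ℝ, P).prod (𝓡 n)) (𝓡 d) ∞
      (fun q : P × T => tr χ F (θ (Θ.symm q.2).2 • q.1) (Θ.symm q.2).1) := h.comp h6
  exact Θ.contMDiff.comp (h7.prodMk h2)

theorem fib_inv {P : Type} [NormedAddCommGroup P] [NormedSpace ℝ P]
    (Θ : ProdDiff n d e T M N) {χ : OpenPartialHomeomorph M (V d)}
    {F F' : P × V d → V d} {θ : N → ℝ}
    (h : ∀ (w : P) (x : M), tr χ F' w (tr χ F w x) = x) (w : P) (p : T) :
    fib Θ χ F' θ w (fib Θ χ F θ w p) = p := by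
  obtain ⟨⟨x, y⟩, rfl⟩ : ∃ q : M × N, Θ q = p := Θ.surjective p
  rw [fib_apply, fib_apply, h]

/-- one symbol -/
theorem one (r : ℕ∞) (Θ : ProdDiff n d e T M N) {χ : OpenPartialHomeomorph M (V d)}
    (hχ : χ ∈ IsManifold.maximalAtlas (𝓡 d) ∞ M) (hb : closedBall (0 : V d) 3 ⊆ χ.target)
    {F F' : Kp d × V d → V d} (hF : KFam d F F') {θ : N → ℝ} (hθ : ContMDiff (𝓡 e) 𝓘(ℝ, ℝ) ∞ θ) :
    ∃ Φ : Kp d → DiffM n T r,
      ContMDiff (𝓘(ℝ, Kp d).prod (𝓡 n)) (𝓡 n) r (fun q : Kp d × T => Φ q.1 q.2) ∧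
      (∀ p, Φ 0 p = p) ∧ ∀ w x y, Φ w (Θ (x, y)) = Θ (tr χ F (θ y • w) x, y) := by
  have hA : closedBall (0 : V d) (5 / 2) ⊆ χ.target :=
    (closedBall_subset_closedBall (by norm_num)).trans hb
  have hcl : IsClosed (χ.symm '' closedBall (0 : V d) (5 / 2)) :=
    ((isCompact_closedBall _ _).image_of_continuousOn (χ.continuousOn_symm.mono hA)).isClosed
  have hs := fib_smooth Θ hθ (tr_smooth hχ hA hcl hF.inv hF.smooth hF.supp)
  have hs' := fib_smooth Θ hθ (tr_smooth hχ hA hcl hF.inv' hF.smooth' hF.supp')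
  have hr : ((r : ℕ∞) : WithTop ℕ∞) ≤ ∞ := by exact_mod_cast le_top
  have hs1 : ∀ w : Kp d, ContMDiff (𝓡 n) (𝓡 n) ∞ (fib Θ χ F θ w) := fun w =>
    hs.comp (contMDiff_const.prodMk contMDiff_id)
  have hs1' : ∀ w : Kp d, ContMDiff (𝓡 n) (𝓡 n) ∞ (fib Θ χ F' θ w) := fun w =>
    hs'.comp (contMDiff_const.prodMk contMDiff_id)
  refine ⟨fun w => ⟨⟨fib Θ χ F θ w, fib Θ χ F' θ w,
    fib_inv Θ (tr_inv hA hF.inv hF.supp) w, fib_inv Θ (tr_inv hA hF.inv' hF.supp') w⟩,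
    (hs1 w).of_le hr, (hs1' w).of_le hr⟩, hs.of_le hr, ?_, fun w x y => fib_apply Θ χ F θ w x y⟩
  intro p
  show fib Θ χ F θ 0 p = p
  obtain ⟨⟨x, y⟩, rfl⟩ : ∃ q : M × N, Θ q = p := Θ.surjective p
  rw [fib_apply, smul_zero]
  by_cases hx : x ∈ χ.source
  · rw [tr_source hx, hF.zero, χ.left_inv hx]
  · rw [tr_not_source hx]

end one

section all

variable {d e n : ℕ} {M : Type u} [TopologicalSpace M] [T2Space M] [ChartedSpace (V d) M]
  [IsManifold (𝓡 d) ∞ M] {N : Type v} [TopologicalSpace N] [ChartedSpace (V e) N]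
  {T : Type w} [TopologicalSpace T] [ChartedSpace (V n) T]

/-- finitely many symbols -/
theorem many (r : ℕ∞) (Θ : ProdDiff n d e T M N) (𝒜 : Atl d M) {k : ℕ} (c : Fin k → Fin 𝒜.q)
    {F F' : Kp d × V d → V d} (hF : KFam d F F') (θ : Fin k → N → ℝ)
    (hθ : ∀ a, ContMDiff (𝓡 e) 𝓘(ℝ, ℝ) ∞ (θ a)) (l : Finset (Fin k)) :
    ∃ Φ : (Fin k → Kp d) → DiffM n T r,
      ContMDiff (𝓘(ℝ, Fin k → Kp d).prod (𝓡 n)) (𝓡 n) r
        (fun q : (Fin k → Kp d) × T => Φ q.1 q.2) ∧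
      (∀ p, Φ 0 p = p) ∧
      (∀ w x y, (∀ a ∈ l, θ a y = 0) → Φ w (Θ (x, y)) = Θ (x, y)) ∧
      ∀ w x y, ∀ a ∈ l, (∀ b ∈ l, b ≠ a → θ b y = 0) →
        Φ w (Θ (x, y)) = Θ (tr (𝒜.χ (c a)) F (θ a y • w a) x, y) := by
  classical
  have htr0 : ∀ (i : Fin 𝒜.q) (x : M), tr (𝒜.χ i) F (0 : Kp d) x = x := by
    intro i x
    by_cases hx : x ∈ (𝒜.χ i).source
    · rw [tr_source hx, hF.zero, (𝒜.χ i).left_inv hx]
    · rw [tr_not_source hx]
  have hz0 : ∀ w : Kp d, (0 : ℝ) • w = 0 := fun w => zero_smul ℝ w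
  induction l using Finset.induction_on with
  | empty =>
    refine ⟨fun _ => Diffeomorph.refl (𝓡 n) T r, contMDiff_snd, fun p => rfl, fun w x y _ => rfl,
      fun w x y a ha => absurd ha (Finset.notMem_empty a)⟩
  | insert a l hal ih =>
    obtain ⟨Φ, h1, h2, h3, h4⟩ := ih
    obtain ⟨Ψ, g1, g2, g3⟩ := one r Θ (𝒜.mem (c a)) (𝒜.ball (c a)) hF (hθ a)
    refine ⟨fun w => (Φ w).trans (Ψ (w a)), ?_, ?_, ?_, ?_⟩
    · have e1 : ContDiff ℝ r (fun w : Fin k → Kp d => w a) := contDiff_apply ℝ (Kp d) a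
      have e2 : ContMDiff (𝓘(ℝ, Fin k → Kp d).prod (𝓡 n)) 𝓘(ℝ, Kp d) r
          (fun q : (Fin k → Kp d) × T => q.1 a) := e1.contMDiff.comp contMDiff_fst
      exact g1.comp (e2.prodMk h1)
    · intro p
      show Ψ ((0 : Fin k → Kp d) a) (Φ 0 p) = p
      rw [h2, Pi.zero_apply, g2]
    · intro w x y hy
      show Ψ (w a) (Φ w (Θ (x, y))) = Θ (x, y)
      rw [h3 w x y (fun b hb => hy b (Finset.mem_insert_of_mem hb)), g3,
        hy a (Finset.mem_insert_self a l), hz0, htr0]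
    · intro w x y b hb hy
      show Ψ (w a) (Φ w (Θ (x, y))) = _
      rcases Finset.mem_insert.1 hb with rfl | hb'
      · rw [h3 w x y (fun b' hb' => hy b' (Finset.mem_insert_of_mem hb')
          (fun h => hal (h ▸ hb'))), g3]
      · have hab : a ≠ b := fun h => hal (h ▸ hb')
        rw [h4 w x y b hb' (fun b' hb'' hne => hy b' (Finset.mem_insert_of_mem hb'') hne), g3,
          hy a (Finset.mem_insert_self a l) hab, hz0, htr0]

theorem pert : S_PERT.{u, v, w} := by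
  intro d e n M _ _ _ _ _ N _ _ _ _ _ T _ _ _ _ _ r hr 𝒜 f g Θ G hG U hU hGU k C hC hdis c
  obtain ⟨F, F', κ, hκ, hκ10, hF, hkick⟩ := kick_family d
  by_cases hT : Nonempty T
  swap
  · refine ⟨1 / 10, by norm_num, le_refl _, fun w _ => ⟨G, hGU, fun a y _ z _ => ?_⟩⟩
    exact absurd ⟨Θ ((𝒜.χ (c a)).symm z, y)⟩ hT
  obtain ⟨p₀⟩ := hT
  -- cut-off functions
  have hθ : ∀ a : Fin k, ∃ θ : N → ℝ, ContMDiff (𝓡 e) 𝓘(ℝ, ℝ) ∞ θ ∧ (∀ y ∈ C a, θ y = 1) ∧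
      ∀ b, b ≠ a → ∀ y ∈ C b, θ y = 0 := by
    intro a
    have h1 : IsClosed (⋃ b ∈ {b : Fin k | b ≠ a}, C b) :=
      Set.Finite.isClosed_biUnion (Set.toFinite _) (fun b _ => hC b)
    have h2 : Disjoint (⋃ b ∈ {b : Fin k | b ≠ a}, C b) (C a) := by
      rw [Set.disjoint_iUnion₂_left]
      exact fun b hb => hdis b a hb
    obtain ⟨θ, t1, t2, -⟩ := exists_contMDiffMap_zero_one_of_isClosed (𝓡 e) (n := ⊤) h1 (hC a) h2
    refine ⟨θ, θ.contMDiff, fun y hy => t2 hy, fun b hb y hy => ?_⟩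
    exact t1 (mem_iUnion₂.2 ⟨b, hb, hy⟩)
  choose θ hθs hθ1 hθ0 using hθ
  obtain ⟨Φ, h1, h2, -, h4⟩ := many (n := n) r Θ 𝒜 c hF θ hθs Finset.univ
  have hfam : IsFam n T r (fun w : Fin k → Kp d => (Φ w).trans G) := by
    intro p
    exact (G.contMDiff.comp h1).contMDiffAt
  have h0 : (Φ 0).trans G = G := by
    ext p
    show G (Φ 0 p) = G p
    rw [h2]
  obtain ⟨κ', hκ', hmem⟩ := Pool.Agent.TH80.CLX.fam_mem r hr
    (fun w : Fin k → Kp d => (Φ w).trans G) hfam p₀ U hU (by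
      show (Φ 0).trans G ∈ U
      rw [h0]; exact hGU)
  refine ⟨min κ (κ' / 2), lt_min hκ (by positivity), (min_le_left _ _).trans hκ10, fun w hw => ?_⟩
  refine ⟨(Φ w).trans G, hmem w ?_, ?_⟩
  · have h5 : ‖w‖ ≤ κ' / 2 :=
      (pi_norm_le_iff_of_nonneg (by positivity)).2 fun a => (hw a).trans (min_le_right _ _)
    linarith
  intro a y hy z hz
  show G (Φ w (Θ ((𝒜.χ (c a)).symm z, y))) = _
  have hz3 : z ∈ (𝒜.χ (c a)).target := by
    apply 𝒜.ball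
    rw [mem_closedBall, dist_zero_right]
    linarith
  rw [h4 w _ y a (Finset.mem_univ a) (fun b _ hb => hθ0 b a hb.symm y hy), hθ1 a y hy, one_smul,
    tr_source ((𝒜.χ (c a)).map_target hz3), (𝒜.χ (c a)).right_inv hz3,
    hkick (w a) z ((hw a).trans (min_le_left _ _)) hz.le]
  exact hG _ _

end all

end Pool.Agent.H15.PT
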