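import Pool.Agent.H15.PT.Pert
import Pool.Agent.H20.PT.Pert

/-!
# Project PT, S_PERTG: kicks for arbitrary diffeomorphisms of a product
-/

set_option autoImplicit false
set_option linter.unusedSectionVars false

open scoped Manifold ContDiff Topology NNReal
open Filter Set Metric

universe u v w

namespace Pool.Agent.H15.PT

open Pool.Agent.H718R2.G Pool.Agent.H20.PT Pool.Agent.R773.TE Pool.Agent.W564.SC

theorem pertg : S_PERTG.{u, v, w} := by
  intro d e n M _ _ _ _ _ N _ _ _ _ _ T _ _ _ _ _ r hr 𝒜 Θ G U hU hGU k C hC hdis c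
  obtain ⟨F, F', κ, hκ, hκ10, hF, hkick⟩ := kick_family d
  by_cases hT : Nonempty T
  swap
  · refine ⟨1 / 10, by norm_num, le_refl _, fun w _ => ⟨G, hGU, fun a y _ z _ => ?_⟩⟩
    exact absurd ⟨Θ ((𝒜.χ (c a)).symm z, y)⟩ hT
  obtain ⟨p₀⟩ := hT
  -- cut-off functions
  have hθ : ∀ a : Fin k, ∃ θ : N → ℝ, ContMDiff (𝓡 e) 𝓘(ℝ, ℝ) ∞ θ ∧ (∀ y ∈ C a, θ y = 1) ∧
      ∀ b, b ≠ a → ∀ y ∈ C b, θ y = 0 := by
    intro a
    have h1 : IsClosed (⋃ b ∈ {b : Fin k | b ≠ a}, C b) :=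
      Set.Finite.isClosed_biUnion (Set.toFinite _) (fun b _ => hC b)
    have h2 : Disjoint (⋃ b ∈ {b : Fin k | b ≠ a}, C b) (C a) := by
      rw [Set.disjoint_iUnion₂_left]
      exact fun b hb => hdis b a hb
    obtain ⟨θ, t1, t2, -⟩ := exists_contMDiffMap_zero_one_of_isClosed (𝓡 e) (n := ⊤) h1 (hC a) h2
    refine ⟨θ, θ.contMDiff, fun y hy => t2 hy, fun b hb y hy => ?_⟩
    exact t1 (mem_iUnion₂.2 ⟨b, hb, hy⟩)
  choose θ hθs hθ1 hθ0 using hθ
  obtain ⟨Φ, h1, h2, -, h4⟩ := many (n := n) r Θ 𝒜 c hF θ hθs Finset.univ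
  have hfam : IsFam n T r (fun w : Fin k → Kp d => (Φ w).trans G) := by
    intro p
    exact (G.contMDiff.comp h1).contMDiffAt
  have h0 : (Φ 0).trans G = G := by
    ext p
    show G (Φ 0 p) = G p
    rw [h2]
  obtain ⟨κ', hκ', hmem⟩ := Pool.Agent.TH80.CLX.fam_mem r hr
    (fun w : Fin k → Kp d => (Φ w).trans G) hfam p₀ U hU (by
      show (Φ 0).trans G ∈ U
      rw [h0]; exact hGU)
  refine ⟨min κ (κ' / 2), lt_min hκ (by positivity), (min_le_left _ _).trans hκ10, fun w hw => ?_⟩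
  refine ⟨(Φ w).trans G, hmem w ?_, ?_⟩
  · have h5 : ‖w‖ ≤ κ' / 2 :=
      (pi_norm_le_iff_of_nonneg (by positivity)).2 fun a => (hw a).trans (min_le_right _ _)
    linarith
  intro a y hy z hz
  show G (Φ w (Θ ((𝒜.χ (c a)).symm z, y))) = _
  have hz3 : z ∈ (𝒜.χ (c a)).target := by
    apply 𝒜.ball
    rw [mem_closedBall, dist_zero_right]
    linarith
  rw [h4 w _ y a (Finset.mem_univ a) (fun b _ hb => hθ0 b a hb.symm y hy), hθ1 a y hy, one_smul,
    tr_source ((𝒜.χ (c a)).map_target hz3), (𝒜.χ (c a)).right_inv hz3,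
    hkick (w a) z ((hw a).trans (min_le_left _ _)) hz.le]

end Pool.Agent.H15.PT
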